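import Pool.Agent.H41.HYP.S1

/-!
# HYP, module NMU: the norm of `K[x]/(f)`
-/

set_option autoImplicit false

namespace Pool.HYP

open Polynomial Matrix

namespace NMU

section ring

variable {R : Type} [CommRing R]

/-- The matrix of multiplication by `h` on `R[x]/(f)`. -/
noncomputable def mm (n : ℕ) (f h : R[X]) : Matrix (Fin n) (Fin n) R :=
  Matrix.of fun i j => ((h * X ^ (j : ℕ)) %ₘ f).coeff (i : ℕ)

theorem norm_eq (f h : R[X]) (hf : f.Monic) :
    Algebra.norm R (AdjoinRoot.mk f h) = (mm f.natDegree f h).det := by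
  rw [Algebra.norm_eq_matrix_det (AdjoinRoot.powerBasis' hf).basis]
  congr 1
  ext i j
  rw [Algebra.leftMulMatrix_eq_repr_mul]
  rw [(AdjoinRoot.powerBasis' hf).basis_eq_pow, AdjoinRoot.powerBasis'_gen]
  have h1 : AdjoinRoot.mk f h * AdjoinRoot.root f ^ (j : ℕ) =
      AdjoinRoot.mk f (h * X ^ (j : ℕ)) := by
    rw [map_mul, map_pow, AdjoinRoot.mk_X]
  rw [h1]
  change (AdjoinRoot.powerBasisAux' hf).repr (AdjoinRoot.mk f (h * X ^ (j : ℕ))) i = _
  rw [AdjoinRoot.powerBasisAux'_repr_apply_to_fun, AdjoinRoot.modByMonicHom_mk]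
  rfl

theorem norm_map {S : Type} [CommRing S] [Nontrivial S] (ι : R →+* S) (f h : R[X])
    (hf : f.Monic) :
    Algebra.norm S (AdjoinRoot.mk (f.map ι) (h.map ι)) = ι (Algebra.norm R (AdjoinRoot.mk f h)) := by
  have : Nontrivial R := ι.domain_nontrivial
  rw [norm_eq _ _ (hf.map ι), norm_eq _ _ hf, hf.natDegree_map, RingHom.map_det]
  congr 1
  ext i j
  simp only [mm, Matrix.of_apply, RingHom.mapMatrix_apply, Matrix.map_apply]
  rw [← coeff_map, map_modByMonic _ hf, Polynomial.map_mul, Polynomial.map_pow, map_X]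

theorem norm_C (f : R[X]) (a : R) (hf : f.Monic) :
    Algebra.norm R (AdjoinRoot.mk f (C a)) = a ^ f.natDegree := by
  have h1 : AdjoinRoot.mk f (C a) = algebraMap R (AdjoinRoot f) a := by
    rw [AdjoinRoot.mk_C]; rfl
  rw [h1, Algebra.norm_algebraMap_of_basis (AdjoinRoot.powerBasis' hf).basis]
  simp

end ring

variable {K : Type} [Field K]

theorem norm_sub (f : K[X]) (hf : f.Monic) (x : K) :
    Algebra.norm K (AdjoinRoot.mk f (C x - X)) = f.eval x := by
  have h1 : AdjoinRoot.mk f (C x - X) =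
      algebraMap K (AdjoinRoot f) x - (AdjoinRoot.powerBasis' hf).gen := by
    rw [map_sub, AdjoinRoot.mk_C, AdjoinRoot.mk_X]
    rfl
  rw [h1, Algebra.norm_eq_matrix_det (AdjoinRoot.powerBasis' hf).basis]
  have h2 : Algebra.leftMulMatrix (AdjoinRoot.powerBasis' hf).basis
      (algebraMap K (AdjoinRoot f) x - (AdjoinRoot.powerBasis' hf).gen) =
      Matrix.scalar _ x -
        Algebra.leftMulMatrix (AdjoinRoot.powerBasis' hf).basis (AdjoinRoot.powerBasis' hf).gen := by
    rw [map_sub]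
    congr 1
    rw [AlgHom.commutes]
    rfl
  rw [h2, ← Matrix.eval_charpoly, charpoly_leftMulMatrix]
  congr 1
  rw [AdjoinRoot.powerBasis'_gen, AdjoinRoot.minpoly_root hf.ne_zero, hf.leadingCoeff, inv_one,
    C.map_one, mul_one]

/-- Multiplicativity in `f`. -/
def Mul (K : Type) [Field K] (h : K[X]) : Prop :=
  ∀ f γ : K[X], f.Monic → γ.Monic →
    Algebra.norm K (AdjoinRoot.mk (f * γ) h) =
      Algebra.norm K (AdjoinRoot.mk f h) * Algebra.norm K (AdjoinRoot.mk γ h)

theorem mul_mul {h k : K[X]} (hh : Mul K h) (hk : Mul K k) : Mul K (h * k) := by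
  intro f γ hf hγ
  simp only [map_mul]
  rw [hh f γ hf hγ, hk f γ hf hγ]
  ring

theorem mul_C (a : K) : Mul K (C a) := by
  intro f γ hf hγ
  rw [norm_C _ _ (hf.mul hγ), norm_C _ _ hf, norm_C _ _ hγ, hf.natDegree_mul hγ, pow_add]

theorem mul_X (a : K) : Mul K (X - C a) := by
  have h1 : (X - C a : K[X]) = C (-1) * (C a - X) := by
    rw [C_neg, C_1]; ring
  rw [h1]
  refine mul_mul (mul_C _) ?_
  intro f γ hf hγ
  rw [norm_sub _ (hf.mul hγ), norm_sub _ hf, norm_sub _ hγ, eval_mul]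

theorem mul_prod (s : Multiset K) : Mul K (s.map fun a => X - C a).prod := by
  induction s using Multiset.induction_on with
  | empty => simpa using mul_C (1 : K)
  | cons a s ih =>
    rw [Multiset.map_cons, Multiset.prod_cons]
    exact mul_mul (mul_X a) ih

theorem mul_all (h : K[X]) : Mul K h := by
  intro f γ hf hγ
  let E := AlgebraicClosure K
  apply (algebraMap K E).injective
  rw [map_mul, ← norm_map _ _ _ (hf.mul hγ), ← norm_map _ _ _ hf, ← norm_map _ _ _ hγ,
    Polynomial.map_mul]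
  have h1 : (h.map (algebraMap K E)).Splits := IsAlgClosed.splits _
  rw [h1.eq_prod_roots]
  exact mul_mul (mul_C _) (mul_prod _) _ _ (hf.map _) (hγ.map _)

end NMU

open NMU in
theorem nmu : NMUStmt := by
  refine ⟨?_, ?_, ?_, ?_⟩
  · intro L _ f γ h hf hγ
    exact mul_all h f γ hf hγ
  · intro L _ c h
    have h1 : AdjoinRoot.mk (X - C c) h = AdjoinRoot.mk (X - C c) (C (h.eval c)) := by
      rw [AdjoinRoot.mk_eq_mk]
      exact X_sub_C_dvd_sub_C_eval
    rw [h1, norm_C _ _ (monic_X_sub_C c), natDegree_X_sub_C, pow_one]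
  · intro L _ c γ hγ
    exact norm_sub γ hγ c
  · intro K L _ _ ι f h hf
    exact norm_map ι f h hf

end Pool.HYP
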