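import Pool.Agent.H41.HYP.S2
import Pool.Agent.H97.PRL.LHL

/-!
# HYP, module UNI: unimodular symmetric matrices over a Henselian discrete valuation ring
-/

set_option autoImplicit false

namespace Pool.HYP

open Matrix

namespace UNI

/-! ### Diagonalisation over a local ring -/

section Diag

variable {R : Type} [CommRing R]

theorem det_succ' {m : ℕ} (M : Matrix (Fin (m + 1)) (Fin (m + 1)) R)
    (h : ∀ j : Fin m, M 0 j.succ = 0) :
    M.det = M 0 0 * (M.submatrix Fin.succ Fin.succ).det := by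
  rw [Matrix.det_succ_row_zero, Fin.sum_univ_succ]
  have h1 : ∑ i : Fin m, (-1) ^ ((i.succ : Fin (m + 1)) : ℕ) * M 0 i.succ *
      (M.submatrix Fin.succ (i.succ).succAbove).det = 0 := by
    refine Finset.sum_eq_zero fun i _ => ?_
    rw [h i]
    ring
  rw [h1]
  simp

theorem stepA [IsLocalRing R] (h2 : IsUnit (2 : R)) {m : ℕ}
    (G : Matrix (Fin (m + 1)) (Fin (m + 1)) R) (hG : Gᵀ = G) (hd : IsUnit G.det) :
    ∃ b : Matrix (Fin (m + 1)) (Fin (m + 1)) R, IsUnit b.det ∧ IsUnit ((bᵀ * G * b) 0 0) := by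
  by_cases h0 : IsUnit (G 0 0)
  · exact ⟨1, by simp, by simpa using h0⟩
  have hex : ∃ k : Fin m, IsUnit (G 0 k.succ) := by
    by_contra hcon
    push Not at hcon
    have h3 : ∀ j, G 0 j ∈ IsLocalRing.maximalIdeal R := by
      intro j
      rw [IsLocalRing.mem_maximalIdeal]
      refine Fin.cases ?_ ?_ j
      · exact h0
      · exact hcon
    have h4 : G.det ∈ IsLocalRing.maximalIdeal R := by
      rw [Matrix.det_succ_row_zero]
      refine Ideal.sum_mem _ fun j _ => ?_
      exact Ideal.mul_mem_right _ _ (Ideal.mul_mem_left _ _ (h3 j))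
    exact (IsLocalRing.mem_maximalIdeal _).1 h4 hd
  obtain ⟨k, hk⟩ := hex
  have hq : ∀ t : R, ((transvection k.succ 0 t)ᵀ * G * transvection k.succ 0 t) 0 0 =
      G 0 0 + 2 * t * G 0 k.succ + t ^ 2 * G k.succ k.succ := by
    intro t
    have hs : G k.succ 0 = G 0 k.succ := by
      conv_lhs => rw [← hG]
      rfl
    have hc : ∀ i : Fin (m + 1), transvection k.succ 0 t i 0 =
        (if i = 0 then 1 else 0) + (if i = k.succ then t else 0) := by
      intro i
      simp only [transvection, Matrix.add_apply, Matrix.one_apply, Matrix.single_apply]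
      congr 1
      simp [eq_comm]
    rw [Matrix.mul_apply]
    simp only [Matrix.mul_apply, Matrix.transpose_apply, hc, add_mul, mul_add, ite_mul, mul_ite,
      zero_mul, mul_zero, one_mul, mul_one, Finset.sum_add_distrib, Finset.sum_ite_eq',
      Finset.mem_univ, if_true]
    rw [hs]
    ring
  have hdet : ∀ t : R, IsUnit (transvection k.succ (0 : Fin (m + 1)) t).det := by
    intro t
    rw [Matrix.det_transvection_of_ne _ _ (Fin.succ_ne_zero k)]
    exact isUnit_one
  by_cases h5 : IsUnit (G 0 0 + 2 * 1 * G 0 k.succ + 1 ^ 2 * G k.succ k.succ)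
  · exact ⟨_, hdet 1, by rw [hq]; exact h5⟩
  · refine ⟨_, hdet (-1), ?_⟩
    rw [hq]
    by_contra h6
    have h7 := (IsLocalRing.mem_maximalIdeal _).2 h5
    have h8 := (IsLocalRing.mem_maximalIdeal _).2 h6
    have h9 := Ideal.sub_mem _ h7 h8
    have h10 : G 0 0 + 2 * 1 * G 0 k.succ + 1 ^ 2 * G k.succ k.succ -
        (G 0 0 + 2 * -1 * G 0 k.succ + (-1) ^ 2 * G k.succ k.succ) =
        2 * 2 * G 0 k.succ := by ring
    rw [h10] at h9
    exact (IsLocalRing.mem_maximalIdeal _).1 h9 ((h2.mul h2).mul hk)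

/-- The matrix `1 ⊕ a`. -/
def ext1 {m : ℕ} (a : Matrix (Fin m) (Fin m) R) : Matrix (Fin (m + 1)) (Fin (m + 1)) R :=
  Matrix.of fun i j => Fin.cases (Fin.cases 1 (fun _ => 0) j) (fun i' => Fin.cases 0 (fun j' => a i' j') j) i

@[simp] theorem ext1_00 {m : ℕ} (a : Matrix (Fin m) (Fin m) R) : ext1 a 0 0 = 1 := rfl
@[simp] theorem ext1_0s {m : ℕ} (a : Matrix (Fin m) (Fin m) R) (j : Fin m) :
    ext1 a 0 j.succ = 0 := rfl
@[simp] theorem ext1_s0 {m : ℕ} (a : Matrix (Fin m) (Fin m) R) (i : Fin m) :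
    ext1 a i.succ 0 = 0 := rfl
@[simp] theorem ext1_ss {m : ℕ} (a : Matrix (Fin m) (Fin m) R) (i j : Fin m) :
    ext1 a i.succ j.succ = a i j := rfl

theorem ext1_det {m : ℕ} (a : Matrix (Fin m) (Fin m) R) : (ext1 a).det = a.det := by
  rw [det_succ' _ (fun j => rfl)]
  rw [ext1_00, one_mul]
  rfl

/-- The shear which clears the first row. -/
def shr {m : ℕ} (w : Fin m → R) : Matrix (Fin (m + 1)) (Fin (m + 1)) R :=
  Matrix.of fun i j => Fin.cases (Fin.cases 1 (fun j' => w j') j)
    (fun i' => Fin.cases 0 (fun j' => if i' = j' then 1 else 0) j) i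

@[simp] theorem shr_00 {m : ℕ} (w : Fin m → R) : shr w 0 0 = 1 := rfl
@[simp] theorem shr_0s {m : ℕ} (w : Fin m → R) (j : Fin m) : shr w 0 j.succ = w j := rfl
@[simp] theorem shr_s0 {m : ℕ} (w : Fin m → R) (i : Fin m) : shr w i.succ 0 = 0 := rfl
@[simp] theorem shr_ss {m : ℕ} (w : Fin m → R) (i j : Fin m) :
    shr w i.succ j.succ = if i = j then 1 else 0 := rfl

theorem shr_det {m : ℕ} (w : Fin m → R) : (shr w).det = 1 := by
  rw [← Matrix.det_transpose, det_succ' _ (fun j => by rw [Matrix.transpose_apply, shr_s0])]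
  have h1 : ((shr w)ᵀ.submatrix Fin.succ Fin.succ) = 1 := by
    ext i j
    rw [Matrix.submatrix_apply, Matrix.transpose_apply, shr_ss, Matrix.one_apply]
    simp [eq_comm]
  rw [h1, Matrix.transpose_apply, shr_00, Matrix.det_one, one_mul]

theorem diag [IsLocalRing R] (h2 : IsUnit (2 : R)) : ∀ (m : ℕ) (G : Matrix (Fin m) (Fin m) R),
    Gᵀ = G → IsUnit G.det → ∃ a : Matrix (Fin m) (Fin m) R, IsUnit a.det ∧ ∃ u : Fin m → R,
      (∀ i, IsUnit (u i)) ∧ aᵀ * G * a = Matrix.diagonal u := by
  intro m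
  induction m with
  | zero =>
    intro G _ _
    exact ⟨1, by simp, fun _ => 1, fun i => isUnit_one, by ext i; exact i.elim0⟩
  | succ m ih =>
    intro G hG hd
    obtain ⟨b, hb, hu⟩ := stepA h2 G hG hd
    set H := bᵀ * G * b with hH
    have hHt : Hᵀ = H := by
      rw [hH, Matrix.transpose_mul, Matrix.transpose_mul, Matrix.transpose_transpose, hG,
        Matrix.mul_assoc]
    have hHd : IsUnit H.det := by
      rw [hH, Matrix.det_mul, Matrix.det_mul, Matrix.det_transpose]
      exact (hb.mul hd).mul hb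
    obtain ⟨v, hv⟩ := hu.exists_right_inv
    have hs : ∀ i j, H i j = H j i := fun i j => by
      conv_lhs => rw [← hHt]
      rfl
    let w : Fin m → R := fun j => - (v * H 0 j.succ)
    set c := shr w with hc
    have hcH : ∀ i j : Fin (m + 1), (cᵀ * H * c) i j =
        Fin.cases (Fin.cases (H 0 0) (fun _ => 0) j)
          (fun i' => Fin.cases 0 (fun j' => H i'.succ j'.succ - v * H 0 i'.succ * H 0 j'.succ) j)
          i := by
      intro i j
      refine Fin.cases ?_ (fun i' => ?_) i <;> refine Fin.cases ?_ (fun j' => ?_) j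
      · simp [Matrix.mul_apply, Fin.sum_univ_succ, hc]
      · simp [Matrix.mul_apply, Fin.sum_univ_succ, hc, w]
        linear_combination (-H 0 j'.succ) * hv
      · simp [Matrix.mul_apply, Fin.sum_univ_succ, hc, w]
        rw [hs i'.succ 0]
        linear_combination (-H 0 i'.succ) * hv
      · simp [Matrix.mul_apply, Fin.sum_univ_succ, hc, w]
        rw [hs i'.succ 0]
        linear_combination (v * H 0 i'.succ * H 0 j'.succ) * hv
    let G' : Matrix (Fin m) (Fin m) R :=
      Matrix.of fun i' j' => H i'.succ j'.succ - v * H 0 i'.succ * H 0 j'.succ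
    have hG't : G'ᵀ = G' := by
      ext i j
      simp only [G', Matrix.transpose_apply, Matrix.of_apply]
      rw [hs j.succ i.succ]
      ring
    have hdet : (cᵀ * H * c).det = H 0 0 * G'.det := by
      have e1 : (cᵀ * H * c) 0 0 = H 0 0 := by rw [hcH]; rfl
      have e2 : (cᵀ * H * c).submatrix Fin.succ Fin.succ = G' := by
        ext i j
        rw [Matrix.submatrix_apply, hcH]
        rfl
      rw [det_succ' _ (fun j => by rw [hcH]; rfl), e1, e2]
    have hG'd : IsUnit G'.det := by
      have h3 : (cᵀ * H * c).det = H.det := by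
        rw [Matrix.det_mul, Matrix.det_mul, Matrix.det_transpose, hc, shr_det, one_mul, mul_one]
      rw [h3] at hdet
      rw [hdet] at hHd
      exact isUnit_of_mul_isUnit_right hHd
    obtain ⟨a', ha', u', hu', he'⟩ := ih G' hG't hG'd
    refine ⟨b * c * ext1 a', ?_, Fin.cons (H 0 0) u', ?_, ?_⟩
    · rw [Matrix.det_mul, Matrix.det_mul, hc, shr_det, ext1_det, mul_one]
      exact hb.mul ha'
    · intro i
      refine Fin.cases ?_ ?_ i
      · exact hu
      · exact hu'
    · have h4 : (b * c * ext1 a')ᵀ * G * (b * c * ext1 a') =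
          (ext1 a')ᵀ * (cᵀ * H * c) * ext1 a' := by
        rw [hH]
        simp only [Matrix.transpose_mul, Matrix.mul_assoc]
      rw [h4]
      ext i j
      refine Fin.cases ?_ (fun i' => ?_) i <;> refine Fin.cases ?_ (fun j' => ?_) j
      · rw [Matrix.mul_apply]
        simp [Matrix.mul_apply, Fin.sum_univ_succ, hcH]
      · rw [Matrix.mul_apply]
        simp [Matrix.mul_apply, Fin.sum_univ_succ, hcH, Matrix.diagonal_apply]
        exact fun h => absurd h.symm (Fin.succ_ne_zero _)
      · rw [Matrix.mul_apply]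
        simp [Matrix.mul_apply, Fin.sum_univ_succ, hcH]
      · have h5 := congrFun (congrFun he' i') j'
        rw [Matrix.mul_apply]
        simp only [Matrix.mul_apply, Fin.sum_univ_succ, Matrix.transpose_apply, hcH, ext1_0s,
          ext1_ss, Fin.cases_zero, Fin.cases_succ, mul_zero, zero_mul, zero_add]
        rw [Matrix.mul_apply] at h5
        simp only [Matrix.mul_apply, Matrix.transpose_apply, G', Matrix.of_apply] at h5
        rw [h5]
        simp [Matrix.diagonal_apply]

end Diag

/-! ### Isotropic subspaces of diagonal matrices -/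

section Iso

variable {L : Type} [Field L]

/-- The diagonal form `u` has a totally isotropic subspace of dimension `g`. -/
def SplD (g : ℕ) {n : ℕ} (u : Fin n → L) : Prop :=
  ∃ e : Fin g → Fin n → L, LinearIndependent L e ∧ ∀ i j, ∑ k, u k * (e i k * e j k) = 0

/-- The embedding of the complement of the hyperbolic plane. -/
def phi (x y u1 u2 : L) (k : ℕ) : (Fin (k + 1) → L) →ₗ[L] (Fin (k + 3) → L) where
  toFun c := Fin.cons (-(u2 * y) * c 0) (Fin.cons (u1 * x * c 0) (Fin.cons 0 (Fin.tail c)))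
  map_add' c d := by
    ext i
    refine Fin.cases ?_ (fun i => ?_) i
    · simp [mul_add]
    refine Fin.cases ?_ (fun i => ?_) i
    · simp [mul_add]
    refine Fin.cases ?_ (fun i => ?_) i
    · change (0 : L) = 0 + 0
      rw [add_zero]
    · simp [Fin.tail]
  map_smul' t c := by
    ext i
    refine Fin.cases ?_ (fun i => ?_) i
    · simp; ring
    refine Fin.cases ?_ (fun i => ?_) i
    · simp; ring
    refine Fin.cases ?_ (fun i => ?_) i
    · change (0 : L) = t * 0
      rw [mul_zero]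
    · simp [Fin.tail]

theorem step {g k : ℕ} {u1 u2 u3 x y : L} {r : Fin k → L} (hu : u1 ≠ 0 ∧ u2 ≠ 0 ∧ u3 ≠ 0)
    (he : u1 * x ^ 2 + u2 * y ^ 2 = -u3)
    (h : SplD g (Fin.cons (-(u1 * u2 * u3)) r : Fin (k + 1) → L)) :
    SplD (g + 1) (Fin.cons u1 (Fin.cons u2 (Fin.cons u3 r)) : Fin (k + 3) → L) := by
  obtain ⟨hu1, hu2, hu3⟩ := hu
  obtain ⟨e, hli, horth⟩ := h
  have hxy : ¬ (x = 0 ∧ y = 0) := by
    rintro ⟨rfl, rfl⟩
    apply hu3
    linear_combination he
  have hinj : LinearMap.ker (phi x y u1 u2 k) = ⊥ := by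
    rw [LinearMap.ker_eq_bot']
    intro c hc
    have h0 : -(u2 * y) * c 0 = 0 := congrFun hc 0
    have h1 : u1 * x * c 0 = 0 := congrFun hc 1
    have h2 : ∀ i : Fin k, c i.succ = 0 := fun i => congrFun hc i.succ.succ.succ
    have h3 : c 0 = 0 := by
      by_contra h4
      apply hxy
      constructor
      · have := (mul_eq_zero.1 h1).resolve_right h4
        exact (mul_eq_zero.1 this).resolve_left hu1
      · have := (mul_eq_zero.1 h0).resolve_right h4
        rw [neg_eq_zero] at this
        exact (mul_eq_zero.1 this).resolve_left hu2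
    ext i
    refine Fin.cases ?_ (fun i => ?_) i
    · exact h3
    · exact h2 i
  let z : Fin (k + 3) → L := Fin.cons x (Fin.cons y (Fin.cons 1 0))
  refine ⟨Fin.cons z (fun i => phi x y u1 u2 k (e i)), ?_, ?_⟩
  · rw [linearIndependent_finCons]
    constructor
    · exact hli.map' _ hinj
    · intro hmem
      have h5 : Submodule.span L (Set.range fun i => phi x y u1 u2 k (e i)) ≤
          LinearMap.ker (LinearMap.proj (2 : Fin (k + 3)) : (Fin (k + 3) → L) →ₗ[L] L) := by
        rw [Submodule.span_le]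
        rintro _ ⟨i, rfl⟩
        rfl
      have h6 := h5 hmem
      have h7 : (1 : L) = 0 := h6
      exact one_ne_zero h7
  · have hz : ∀ v : Fin (k + 3) → L, ∑ l, (Fin.cons u1 (Fin.cons u2 (Fin.cons u3 r)) :
        Fin (k + 3) → L) l * (z l * v l) =
        u1 * (x * v 0) + u2 * (y * v 1) + u3 * v 2 := by
      intro v
      rw [Fin.sum_univ_succ, Fin.sum_univ_succ, Fin.sum_univ_succ]
      have h8 : ∀ i : Fin k, z i.succ.succ.succ = 0 := fun i => rfl
      simp only [Fin.cons_succ, h8, zero_mul, mul_zero, Finset.sum_const_zero]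
      change u1 * (x * v 0) + (u2 * (y * v 1) + (u3 * (1 * v 2) + 0)) = _
      ring
    have hp : ∀ c d : Fin (k + 1) → L, ∑ l, (Fin.cons u1 (Fin.cons u2 (Fin.cons u3 r)) :
        Fin (k + 3) → L) l * (phi x y u1 u2 k c l * phi x y u1 u2 k d l) =
        ∑ l, (Fin.cons (-(u1 * u2 * u3)) r : Fin (k + 1) → L) l * (c l * d l) := by
      intro c d
      rw [Fin.sum_univ_succ, Fin.sum_univ_succ, Fin.sum_univ_succ, Fin.sum_univ_succ (n := k)]
      simp only [Fin.cons_succ, Fin.cons_zero]
      change u1 * ((-(u2 * y) * c 0) * (-(u2 * y) * d 0)) +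
        (u2 * ((u1 * x * c 0) * (u1 * x * d 0)) +
        (u3 * (0 * 0) + ∑ i : Fin k, r i * (c i.succ * d i.succ))) = _
      linear_combination (u1 * u2 * c 0 * d 0) * he
    have hzp : ∀ c : Fin (k + 1) → L, ∑ l, (Fin.cons u1 (Fin.cons u2 (Fin.cons u3 r)) :
        Fin (k + 3) → L) l * (z l * phi x y u1 u2 k c l) = 0 := by
      intro c
      rw [hz]
      change u1 * (x * (-(u2 * y) * c 0)) + u2 * (y * (u1 * x * c 0)) + u3 * 0 = 0
      ring
    intro i j
    refine Fin.cases ?_ (fun i => ?_) i <;> refine Fin.cases ?_ (fun j => ?_) j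
    · simp only [Fin.cons_zero]
      rw [hz]
      change u1 * (x * x) + u2 * (y * y) + u3 * 1 = 0
      linear_combination he
    · simp only [Fin.cons_zero, Fin.cons_succ]
      exact hzp _
    · simp only [Fin.cons_zero, Fin.cons_succ]
      rw [← hzp (e i)]
      exact Finset.sum_congr rfl fun l _ => by ring
    · simp only [Fin.cons_succ]
      rw [hp]
      exact horth i j

theorem prod3 {k : ℕ} (u : Fin (k + 3) → L) :
    ∏ i, u i = u 0 * (u 1 * (u 2 * ∏ i : Fin k, u i.succ.succ.succ)) := by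
  rw [Fin.prod_univ_succ, Fin.prod_univ_succ, Fin.prod_univ_succ]
  rfl

/-- Three-term representation. -/
def Rep3 (U : L → Prop) : Prop :=
  ∀ u1 u2 u3 : L, U u1 → U u2 → U u3 → ∃ x y : L, u1 * x ^ 2 + u2 * y ^ 2 = -u3

theorem main (U : L → Prop) (h0 : ∀ a, U a → a ≠ 0) (hm : ∀ a b, U a → U b → U (a * b))
    (hn : ∀ a, U a → U (-a)) (hr : Rep3 U) :
    ∀ (g : ℕ), (∀ u : Fin (2 * g + 1) → L, (∀ i, U (u i)) → SplD g u) ∧
      (∀ u : Fin (2 * g) → L, (∀ i, U (u i)) → IsSquare ((-1) ^ g * ∏ i, u i) → SplD g u) := by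
  intro g
  induction g with
  | zero =>
    exact ⟨fun u _ => ⟨fun i => i.elim0, linearIndependent_empty_type, fun i => i.elim0⟩,
      fun u _ _ => ⟨fun i => i.elim0, linearIndependent_empty_type, fun i => i.elim0⟩⟩
  | succ g ih =>
    constructor
    · intro u hu
      obtain ⟨x, y, hxy⟩ := hr (u 0) (u 1) (u 2) (hu 0) (hu 1) (hu 2)
      have h1 := step (r := fun i : Fin (2 * g) => u i.succ.succ.succ)
        ⟨h0 _ (hu 0), h0 _ (hu 1), h0 _ (hu 2)⟩ hxy (ih.1 _ (by
          intro i
          refine Fin.cases ?_ (fun i => ?_) i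
          · exact hn _ (hm _ _ (hm _ _ (hu 0) (hu 1)) (hu 2))
          · exact hu _))
      have h2 : u = (Fin.cons (u 0) (Fin.cons (u 1) (Fin.cons (u 2)
          (fun i : Fin (2 * g) => u i.succ.succ.succ)))) := by
        ext i
        refine Fin.cases rfl (fun i => ?_) i
        refine Fin.cases rfl (fun i => ?_) i
        refine Fin.cases rfl (fun i => ?_) i
        rfl
      rw [h2]
      exact h1
    · intro u hu hsq
      rcases g with _ | g
      · -- the binary case
        obtain ⟨s, hs⟩ := hsq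
        have h3 : u 0 * u 1 = - (s * s) := by
          rw [← hs]
          simp [Fin.prod_univ_succ]
        refine ⟨fun _ => ![s, u 0], ?_, ?_⟩
        · have : Unique (Fin (0 + 1)) := inferInstanceAs (Unique (Fin 1))
          rw [linearIndependent_unique_iff]
          intro h4
          exact h0 _ (hu 0) (congrFun h4 1)
        · intro i j
          rw [Fin.sum_univ_succ, Fin.sum_univ_succ]
          change u 0 * (s * s) + (u 1 * (u 0 * u 0) + 0) = 0
          linear_combination (u 0) * h3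
      · obtain ⟨x, y, hxy⟩ := hr (u 0) (u 1) (u 2) (hu 0) (hu 1) (hu 2)
        have h1 := step (r := fun i : Fin (2 * g + 1) => u i.succ.succ.succ)
          ⟨h0 _ (hu 0), h0 _ (hu 1), h0 _ (hu 2)⟩ hxy (ih.2 _ (by
            intro i
            refine Fin.cases ?_ (fun i => ?_) i
            · exact hn _ (hm _ _ (hm _ _ (hu 0) (hu 1)) (hu 2))
            · exact hu _) (by
            have h5 : ∏ i, u i = u 0 * (u 1 * (u 2 *
                ∏ i : Fin (2 * g + 1), u i.succ.succ.succ)) := prod3 (k := 2 * g + 1) u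
            have h6 : (∏ i : Fin (2 * (g + 1)), (Fin.cons (-(u 0 * u 1 * u 2))
                (fun i : Fin (2 * g + 1) => u i.succ.succ.succ) : Fin (2 * g + 1 + 1) → L) i) =
                -(u 0 * u 1 * u 2) * ∏ i : Fin (2 * g + 1), u i.succ.succ.succ :=
              Fin.prod_univ_succ (n := 2 * g + 1) _
            rw [h6]
            rw [h5] at hsq
            convert_to IsSquare ((-1) ^ (g + 1 + 1) * (u 0 * (u 1 * (u 2 *
                ∏ i : Fin (2 * g + 1), u i.succ.succ.succ))))
            · ring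
            · exact hsq))
        have h2 : u = (Fin.cons (u 0) (Fin.cons (u 1) (Fin.cons (u 2)
            (fun i : Fin (2 * g + 1) => u i.succ.succ.succ)))) := by
          ext i
          refine Fin.cases rfl (fun i => ?_) i
          refine Fin.cases rfl (fun i => ?_) i
          refine Fin.cases rfl (fun i => ?_) i
          rfl
        rw [h2]
        exact h1

theorem splM_of {g n : ℕ} {G a : Matrix (Fin n) (Fin n) L} {u : Fin n → L} (ha : a.det ≠ 0)
    (h : aᵀ * G * a = Matrix.diagonal u) (hs : SplD g u) : SplM g G := by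
  obtain ⟨e, hli, horth⟩ := hs
  refine ⟨fun i => a *ᵥ e i, ?_, ?_⟩
  · have h1 : LinearMap.ker (Matrix.toLin' a) = ⊥ := by
      rw [Matrix.ker_toLin'_eq_bot_iff]
      intro v hv
      exact Matrix.eq_zero_of_mulVec_eq_zero ha hv
    have h2 := hli.map' _ h1
    exact h2
  · intro i j
    have h3 : (a *ᵥ e i) ⬝ᵥ (G *ᵥ (a *ᵥ e j)) = e i ⬝ᵥ ((aᵀ * G * a) *ᵥ e j) := by
      rw [← Matrix.mulVec_mulVec, ← Matrix.mulVec_mulVec, Matrix.dotProduct_mulVec (e i),
        Matrix.vecMul_transpose]
    change (a *ᵥ e i) ⬝ᵥ (G *ᵥ (a *ᵥ e j)) = 0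
    rw [h3, h, ← horth i j]
    simp only [dotProduct, Matrix.mulVec_diagonal]
    exact Finset.sum_congr rfl fun k _ => by ring

end Iso

/-! ### Local fields -/

section Local

open Pool.AVS Pool.PRL

variable {L : Type} [Field L] {O : ValuationSubring L} {π : L}

theorem UI_inv {a : L} (ha : UI (O : Set L) a) : UI (O : Set L) a⁻¹ :=
  ⟨inv_ne_zero ha.1, ha.2.2, by rw [inv_inv]; exact ha.2.1⟩

theorem rep3 (h : Loc L O π) : Rep3 (UI (O : Set L)) := by
  intro u1 u2 u3 h1 h2 h3
  have hA : UI (O : Set L) (-(u3 * u2⁻¹)) := LHL.UI_neg (LHL.UI_mul h3 (UI_inv h2))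
  have hB : UI (O : Set L) (-(u3 * u1⁻¹)) := LHL.UI_neg (LHL.UI_mul h3 (UI_inv h1))
  obtain ⟨x, y, z, hne, he⟩ := LHL.case00 h hA hB
  have n1 := h1.1
  have n2 := h2.1
  have n3 := h3.1
  have he' : u1 * x ^ 2 + u2 * y ^ 2 = -u3 * z ^ 2 := by
    field_simp at he
    linear_combination (-1 : L) * he
  by_cases hz : z = 0
  · rw [hz] at he'
    have hx : x ≠ 0 := by
      intro hx
      rw [hx] at he'
      have h6 : y ^ 2 = 0 := by
        have h7 : u2 * y ^ 2 = 0 := by linear_combination he'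
        exact (mul_eq_zero.1 h7).resolve_left n2
      rcases hne with h8 | h8 | h8
      · exact h8 hx
      · exact h8 (pow_eq_zero_iff two_ne_zero |>.1 h6)
      · exact h8 hz
    have h4 : (4 : L) ≠ 0 := by
      have h5 : (4 : L) = 2 * 2 := by norm_num
      rw [h5]
      exact mul_ne_zero h.two.1 h.two.1
    refine ⟨(-u3 / (4 * u1 * x ^ 2) + 1) * x, (-u3 / (4 * u1 * x ^ 2) - 1) * y, ?_⟩
    have h6 : u2 * y ^ 2 = -(u1 * x ^ 2) := by linear_combination he'
    have h7 : u1 * ((-u3 / (4 * u1 * x ^ 2) + 1) * x) ^ 2 +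
        u2 * ((-u3 / (4 * u1 * x ^ 2) - 1) * y) ^ 2 =
        4 * (u1 * x ^ 2) * (-u3 / (4 * u1 * x ^ 2)) := by
      linear_combination ((-u3 / (4 * u1 * x ^ 2) - 1) ^ 2) * h6
    rw [h7]
    field_simp
  · refine ⟨x / z, y / z, ?_⟩
    field_simp
    linear_combination he'

end Local

end UNI

open UNI Pool.AVS Pool.PRL in
theorem uni : UNIStmt := by
  intro L _ O π h m G hG hO hd
  have := h.hens
  -- the matrix over `O`
  let GO : Matrix (Fin m) (Fin m) O := Matrix.of fun i j => ⟨G i j, hO i j⟩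
  have hmap : GO.map (algebraMap O L) = G := by
    ext i j
    rfl
  have hGO : GOᵀ = GO := by
    ext i j
    exact congrFun (congrFun hG i) j
  have hdetO : algebraMap O L GO.det = G.det := by
    rw [RingHom.map_det]
    exact congrArg Matrix.det hmap
  have hU : IsUnit GO.det := by
    refine IsUnit.of_mul_eq_one (⟨G.det⁻¹, hd.2.2⟩ : O) ?_
    apply Subtype.ext
    change algebraMap O L GO.det * G.det⁻¹ = 1
    rw [hdetO]
    exact mul_inv_cancel₀ hd.1
  obtain ⟨a, ha, u, hu, he⟩ := diag (LocB.two_unit h) m GO hGO hU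
  have hunit : ∀ x : O, IsUnit x → UI (O : Set L) (x : L) := by
    intro x hx
    obtain ⟨y, hy⟩ := hx.exists_right_inv
    have h1 : (x : L) * y = 1 := congrArg Subtype.val hy
    have h2 : (x : L) ≠ 0 := left_ne_zero_of_mul_eq_one h1
    refine ⟨h2, x.2, ?_⟩
    rw [inv_eq_of_mul_eq_one_right h1]
    exact y.2
  let aL : Matrix (Fin m) (Fin m) L := a.map (algebraMap O L)
  have haL : aL.det = (a.det : L) := by
    change (a.map (algebraMap O L)).det = algebraMap O L a.det
    rw [RingHom.map_det]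
    rfl
  have haL0 : aL.det ≠ 0 := by
    rw [haL]
    exact (hunit _ ha).1
  have heL : aLᵀ * G * aL = Matrix.diagonal fun i => (u i : L) := by
    have h3 := congrArg (fun M : Matrix (Fin m) (Fin m) O => M.map (algebraMap O L)) he
    simp only [Matrix.map_mul, Matrix.transpose_map] at h3
    rw [hmap] at h3
    rw [show aLᵀ * G * aL = (a.map (algebraMap O L))ᵀ * G * a.map (algebraMap O L) from rfl, h3]
    ext i j
    simp [Matrix.diagonal_apply]
    split_ifs <;> rfl
  have hdetD : ∏ i, (u i : L) = aL.det ^ 2 * G.det := by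
    have h4 := congrArg Matrix.det heL
    rw [Matrix.det_mul, Matrix.det_mul, Matrix.det_transpose, Matrix.det_diagonal] at h4
    rw [← h4]
    ring
  have hm := main (UI (O : Set L)) (fun a ha => ha.1) (fun a b => LHL.UI_mul)
    (fun a => LHL.UI_neg) (rep3 h)
  constructor
  · rintro g rfl
    exact splM_of haL0 heL ((hm g).1 _ fun i => hunit _ (hu i))
  · rintro g rfl hsq
    refine splM_of haL0 heL ((hm g).2 _ (fun i => hunit _ (hu i)) ?_)
    rw [hdetD]
    obtain ⟨s, hs⟩ := hsq
    exact ⟨aL.det * s, by linear_combination aL.det ^ 2 * hs⟩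

end Pool.HYP
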